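import Pool.Agent.X189.BS.Stm

/-! Part `BS_F`: the same local orders of crossings on all wires imply the same commutation
class. -/

namespace Pool.Agent.X56.BS

open Pool.Agent.X189.BS Equiv

variable {n : ℕ}

theorem commMove_symm {R R' : List (Fin n)} (h : CommMove R R') : CommMove R' R := by
  obtain ⟨A, B, i, j, hij, h | h⟩ := h
  · exact ⟨A, B, i, j, hij, Or.inr ⟨h.2, h.1⟩⟩
  · exact ⟨A, B, i, j, hij, Or.inl ⟨h.2, h.1⟩⟩

theorem sameClass_symm {R R' : List (Fin n)} (h : SameClass R R') : SameClass R' R := by
  induction h with
  | refl => exact Relation.ReflTransGen.refl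
  | tail _ hb ih => exact Relation.ReflTransGen.head (commMove_symm hb) ih

theorem sameClass_cons (i : Fin n) {R R' : List (Fin n)} (h : SameClass R R') :
    SameClass (i :: R) (i :: R') := by
  induction h with
  | refl => exact Relation.ReflTransGen.refl
  | tail _ hb ih =>
      refine Relation.ReflTransGen.tail ih ?_
      obtain ⟨A, B, a, b, hab, h | h⟩ := hb
      · exact ⟨i :: A, B, a, b, hab, Or.inl ⟨by rw [h.1]; rfl, by rw [h.2]; rfl⟩⟩
      · exact ⟨i :: A, B, a, b, hab, Or.inr ⟨by rw [h.1]; rfl, by rw [h.2]; rfl⟩⟩

theorem loc_cons (x : Fin (n + 1)) (e : Fin (n + 1) × Fin (n + 1))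
    (L : List (Fin (n + 1) × Fin (n + 1))) :
    loc x (e :: L) = if e.1 = x ∨ e.2 = x then e :: loc x L else loc x L := by
  unfold loc
  rw [List.filter_cons]
  by_cases h : e.1 = x ∨ e.2 = x
  · simp [h]
  · simp [h]

theorem sg_apply_ne (j : Fin n) (x : Fin (n + 1)) (h1 : x ≠ j.castSucc) (h2 : x ≠ j.succ) :
    sg j x = x := by
  unfold sg
  exact swap_apply_of_ne_of_ne h1 h2

theorem key (R' : List (Fin n)) : ∀ (u : Perm (Fin (n + 1))) (i : Fin n)
    (l1 l2 : List (Fin (n + 1) × Fin (n + 1))),
    loc (u i.castSucc) (labs u R') = (u i.castSucc, u i.succ) :: l1 →
    loc (u i.succ) (labs u R') = (u i.castSucc, u i.succ) :: l2 →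
    ∃ R'' : List (Fin n), SameClass R' (i :: R'') ∧
      ∀ x, loc x (labs u R') = loc x (labs u (i :: R'')) := by
  induction R' with
  | nil =>
      intro u i l1 l2 h1 h2
      simp [labs, loc] at h1
  | cons j B ih =>
      intro u i l1 l2 h1 h2
      by_cases hji : j = i
      · subst hji
        exact ⟨B, Relation.ReflTransGen.refl, fun x => rfl⟩
      · have hc : u j.castSucc ≠ u i.castSucc := by
          intro h
          exact hji (Fin.castSucc_injective n (u.injective h))
        have hs : u j.succ ≠ u i.succ := by
          intro h
          exact hji (Fin.succ_injective n (u.injective h))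
        have hsc : u j.succ ≠ u i.castSucc := by
          intro h
          rw [labs, loc_cons, if_pos (Or.inr h)] at h1
          have := (List.cons.inj h1).1
          exact hc (Prod.mk.inj this).1
        have hcs : u j.castSucc ≠ u i.succ := by
          intro h
          rw [labs, loc_cons, if_pos (Or.inl h)] at h2
          have := (List.cons.inj h2).1
          exact hs (Prod.mk.inj this).2
        have hc' : i.castSucc ≠ j.castSucc := fun h => hc (by rw [h])
        have hs' : i.succ ≠ j.succ := fun h => hs (by rw [h])
        have hsc' : i.castSucc ≠ j.succ := fun h => hsc (by rw [h])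
        have hcs' : i.succ ≠ j.castSucc := fun h => hcs (by rw [h])
        have e1 : (u * sg j) i.castSucc = u i.castSucc := by
          rw [Perm.mul_apply, sg_apply_ne j _ hc' hsc']
        have e2 : (u * sg j) i.succ = u i.succ := by
          rw [Perm.mul_apply, sg_apply_ne j _ hcs' hs']
        have e3 : (u * sg i) j.castSucc = u j.castSucc := by
          rw [Perm.mul_apply, sg_apply_ne i _ hc'.symm hcs'.symm]
        have e4 : (u * sg i) j.succ = u j.succ := by
          rw [Perm.mul_apply, sg_apply_ne i _ hsc'.symm hs'.symm]
        have hcomm : u * sg j * sg i = u * sg i * sg j := by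
          rw [mul_assoc, mul_assoc]
          congr 1
          ext x
          rw [Perm.mul_apply, Perm.mul_apply]
          by_cases hx1 : x = i.castSucc
          · subst hx1
            have : sg i i.castSucc = i.succ := by unfold sg; exact swap_apply_left _ _
            rw [sg_apply_ne j i.castSucc hc' hsc', this, sg_apply_ne j i.succ hcs' hs']
          · by_cases hx2 : x = i.succ
            · subst hx2
              have : sg i i.succ = i.castSucc := by unfold sg; exact swap_apply_right _ _
              rw [sg_apply_ne j i.succ hcs' hs', this, sg_apply_ne j i.castSucc hc' hsc']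
            · rw [sg_apply_ne i x hx1 hx2]
              by_cases hx3 : x = j.castSucc
              · subst hx3
                have : sg j j.castSucc = j.succ := by unfold sg; exact swap_apply_left _ _
                rw [this, sg_apply_ne i j.succ hsc'.symm hs'.symm]
              · by_cases hx4 : x = j.succ
                · subst hx4
                  have : sg j j.succ = j.castSucc := by unfold sg; exact swap_apply_right _ _
                  rw [this, sg_apply_ne i j.castSucc hc'.symm hcs'.symm]
                · rw [sg_apply_ne j x hx3 hx4, sg_apply_ne i x hx1 hx2]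
        have g1 : loc ((u * sg j) i.castSucc) (labs (u * sg j) B)
            = ((u * sg j) i.castSucc, (u * sg j) i.succ) :: l1 := by
          rw [e1, e2]
          rw [labs, loc_cons, if_neg (by
            rintro (h | h)
            · exact hc h
            · exact hsc h)] at h1
          exact h1
        have g2 : loc ((u * sg j) i.succ) (labs (u * sg j) B)
            = ((u * sg j) i.castSucc, (u * sg j) i.succ) :: l2 := by
          rw [e1, e2]
          rw [labs, loc_cons, if_neg (by
            rintro (h | h)
            · exact hcs h
            · exact hs h)] at h2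
          exact h2
        obtain ⟨B'', hB1, hB2⟩ := ih (u * sg j) i l1 l2 g1 g2
        refine ⟨j :: B'', ?_, ?_⟩
        · refine Relation.ReflTransGen.tail (sameClass_cons j hB1) ?_
          have hv : i.val ≠ j.val := fun h => hji (Fin.ext h.symm)
          have hv1 : i.val ≠ j.val + 1 := by
            intro h
            apply hsc'
            ext
            simpa using h
          have hv2 : i.val + 1 ≠ j.val := by
            intro h
            apply hcs'
            ext
            simpa using h
          rcases Nat.lt_or_ge (i.val + 1) j.val with hlt | hge
          · exact ⟨[], B'', i, j, hlt, Or.inr ⟨rfl, rfl⟩⟩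
          · have : j.val + 1 < i.val := by omega
            exact ⟨[], B'', j, i, this, Or.inl ⟨rfl, rfl⟩⟩
        · intro x
          have hx := hB2 x
          have s1 : labs u (j :: B) = (u j.castSucc, u j.succ) :: labs (u * sg j) B := rfl
          have s2 : labs (u * sg j) (i :: B'')
              = (u i.castSucc, u i.succ) :: labs (u * sg j * sg i) B'' := by
            rw [labs, e1, e2]
          have s3 : labs u (i :: j :: B'') = (u i.castSucc, u i.succ) ::
              (u j.castSucc, u j.succ) :: labs (u * sg i * sg j) B'' := by
            rw [labs, labs, e3, e4]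
          rw [s1, s3, loc_cons, hx, s2, loc_cons, loc_cons, loc_cons, hcomm]
          by_cases hxi : (u i.castSucc = x ∨ u i.succ = x)
          · have hxj : ¬ (u j.castSucc = x ∨ u j.succ = x) := by
              rintro (h | h) <;> rcases hxi with h' | h'
              · exact hc (h.trans h'.symm)
              · exact hcs (h.trans h'.symm)
              · exact hsc (h.trans h'.symm)
              · exact hs (h.trans h'.symm)
            simp only [if_pos hxi, if_neg hxj]
          · simp only [if_neg hxi]

theorem main (R : List (Fin n)) : ∀ (R' : List (Fin n)) (u : Perm (Fin (n + 1))),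
    Eqv (labs u R) (labs u R') → SameClass R R' := by
  induction R with
  | nil =>
      intro R' u h
      cases R' with
      | nil => exact Relation.ReflTransGen.refl
      | cons j B =>
          have := h (u j.castSucc)
          rw [labs, labs, loc_cons, if_pos (Or.inl rfl)] at this
          simp [loc] at this
  | cons i R1 ih =>
      intro R' u h
      have h1 := h (u i.castSucc)
      have h2 := h (u i.succ)
      rw [labs, loc_cons, if_pos (Or.inl rfl)] at h1
      rw [labs, loc_cons, if_pos (Or.inr rfl)] at h2
      obtain ⟨R'', hR1, hR2⟩ := key R' u i _ _ h1.symm h2.symm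
      have hE : Eqv (labs (u * sg i) R1) (labs (u * sg i) R'') := by
        intro x
        have hx := h x
        rw [hR2 x] at hx
        rw [labs, labs, loc_cons, loc_cons] at hx
        by_cases hxi : (u i.castSucc = x ∨ u i.succ = x)
        · simp only [if_pos hxi] at hx
          exact (List.cons.inj hx).2
        · simp only [if_neg hxi] at hx
          exact hx
      exact (sameClass_cons i (ih R'' (u * sg i) hE)).trans (sameClass_symm hR1)

theorem t_F : S_F := by
  intro n R R' _ _ h
  exact main R R' 1 h

end Pool.Agent.X56.BS
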